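import Pool.Agent.H37.IS.Stm

set_option autoImplicit false

namespace H37.IS

theorem TRE_proved : S_TRE := by
  intro V _ _ G _ hT hcard u v huv
  by_contra hcon
  push Not at hcon
  obtain ⟨hu, hv⟩ := hcon
  have hNu : ∀ w, G.Adj u w → w = v := by
    intro w hw
    by_contra hne
    have h2 : ({v, w} : Finset V) ⊆ G.neighborFinset u := by
      intro z hz
      simp only [Finset.mem_insert, Finset.mem_singleton] at hz
      rw [SimpleGraph.mem_neighborFinset]
      rcases hz with rfl | rfl
      · exact huv
      · exact hw
    have h3 := Finset.card_le_card h2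
    rw [Finset.card_pair (Ne.symm hne), SimpleGraph.card_neighborFinset_eq_degree] at h3
    omega
  have hNv : ∀ w, G.Adj v w → w = u := by
    intro w hw
    by_contra hne
    have h2 : ({u, w} : Finset V) ⊆ G.neighborFinset v := by
      intro z hz
      simp only [Finset.mem_insert, Finset.mem_singleton] at hz
      rw [SimpleGraph.mem_neighborFinset]
      rcases hz with rfl | rfl
      · exact huv.symm
      · exact hw
    have h3 := Finset.card_le_card h2
    rw [Finset.card_pair (Ne.symm hne), SimpleGraph.card_neighborFinset_eq_degree] at h3
    omega
  have key : ∀ (x y : V) (p : G.Walk x y), (x = u ∨ x = v) → (y = u ∨ y = v) := by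
    intro x y p
    induction p with
    | nil => exact id
    | cons h p ih =>
      intro hx
      apply ih
      rcases hx with rfl | rfl
      · exact Or.inr (hNu _ h)
      · exact Or.inl (hNv _ h)
  obtain ⟨w, hw⟩ : ∃ w, w ∉ ({u, v} : Finset V) := by
    by_contra hall
    push Not at hall
    have h1 : (Finset.univ : Finset V) ⊆ {u, v} := fun z _ => hall z
    have h2 := Finset.card_le_card h1
    rw [Finset.card_univ] at h2
    have h3 := Finset.card_le_two (a := u) (b := v)
    omega
  obtain ⟨p⟩ := hT.connected.preconnected u w
  have := key u w p (Or.inl rfl)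
  apply hw
  simp only [Finset.mem_insert, Finset.mem_singleton]
  exact this

end H37.IS
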