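import Pool.Agent.H37.IS.Stm2

set_option autoImplicit false

namespace H37.IS

open N36365310

theorem DE2_proved : S_DE2 := by
  classical
  intro V _ _ G _ C hC
  set F : Finset (Finset V) := C.powerset.filter (fun S => G.IsIndepSet (S : Set V)) with hF
  set a : Finset V → ℕ := fun S =>
    ((Finset.univ \ C).filter (fun v => ∃ u ∈ S, G.Adj u v)).card with ha
  set s : Finset V → ℕ := fun S => S.card with hs
  have hcardC : (Finset.univ \ C : Finset V).card = Fintype.card V - C.card := by
    rw [Finset.card_sdiff_of_subset (Finset.subset_univ C), Finset.card_univ]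
  refine ⟨F, a, s, ?_, ?_, ?_⟩
  · constructor
    · intro S _
      rw [← hcardC]
      exact Finset.card_filter_le _ _
    · intro S hS
      rw [hF, Finset.mem_filter, Finset.mem_powerset] at hS
      exact Finset.card_le_card hS.1
    · rw [hF, Finset.mem_filter, Finset.mem_powerset]
      refine ⟨Finset.empty_subset _, ?_⟩
      simp [SimpleGraph.IsIndepSet]
    · simp [ha]
    · simp [hs]
    · intro S _ h0
      exact Finset.card_eq_zero.1 h0
    · intro j
      rw [← Finset.card_powersetCard]
      apply Finset.card_le_card
      intro S hS
      rw [Finset.mem_filter, hF, Finset.mem_filter, Finset.mem_powerset] at hS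
      rw [Finset.mem_powersetCard]
      exact ⟨hS.1.1, hS.2⟩
  · funext k
    set P : Finset (Finset V) := Finset.univ.filter
      (fun I : Finset V => I.card = k ∧ G.IsIndepSet (I : Set V)) with hP
    have h1 : indepSeq G k = P.card := by
      unfold indepSeq
      rw [Nat.card_eq_fintype_card, Fintype.card_subtype]
    have h2 : P.card = ∑ S ∈ F, (P.filter (fun I => I ∩ C = S)).card := by
      apply Finset.card_eq_sum_card_fiberwise
      intro I hI
      have hI' : I.card = k ∧ G.IsIndepSet (I : Set V) := by
        have := Finset.mem_coe.1 hI
        rw [hP, Finset.mem_filter] at this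
        exact this.2
      apply Finset.mem_coe.2
      rw [hF, Finset.mem_filter, Finset.mem_powerset]
      refine ⟨Finset.inter_subset_right, ?_⟩
      intro x hx y hy hne
      exact hI'.2 (Finset.mem_coe.2 (Finset.mem_inter.1 (Finset.mem_coe.1 hx)).1)
        (Finset.mem_coe.2 (Finset.mem_inter.1 (Finset.mem_coe.1 hy)).1) hne
    rw [h1, h2]
    unfold sumch
    apply Finset.sum_congr rfl
    intro S hS
    rw [hF, Finset.mem_filter, Finset.mem_powerset] at hS
    obtain ⟨hSC, hSind⟩ := hS
    unfold ch
    by_cases hk : s S ≤ k
    · rw [if_pos hk]
      set R : Finset V := (Finset.univ \ C).filter (fun v => ¬ ∃ u ∈ S, G.Adj u v) with hR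
      have hRc : R.card = Fintype.card V - C.card - a S := by
        have h3 := Finset.card_filter_add_card_filter_not (s := (Finset.univ \ C : Finset V))
          (fun v => ∃ u ∈ S, G.Adj u v)
        rw [hcardC] at h3
        have h4 : a S = ((Finset.univ \ C).filter (fun v => ∃ u ∈ S, G.Adj u v)).card := rfl
        rw [← h4] at h3
        have h5 : R.card = ((Finset.univ \ C).filter (fun v => ¬ ∃ u ∈ S, G.Adj u v)).card := rfl
        rw [← h5] at h3
        omega
      rw [← hRc, ← Finset.card_powersetCard]
      apply Finset.card_nbij' (fun I => I \ C) (fun J => S ∪ J)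
      · intro I hI
        have hI' := Finset.mem_coe.1 hI
        rw [Finset.mem_filter, hP, Finset.mem_filter] at hI'
        obtain ⟨⟨_, hIk, hIi⟩, hIS⟩ := hI'
        apply Finset.mem_coe.2
        rw [Finset.mem_powersetCard]
        constructor
        · intro v hv
          rw [Finset.mem_sdiff] at hv
          rw [hR, Finset.mem_filter, Finset.mem_sdiff]
          refine ⟨⟨Finset.mem_univ _, hv.2⟩, ?_⟩
          rintro ⟨u, hu, huv⟩
          have huI : u ∈ I := by
            rw [← hIS] at hu
            exact (Finset.mem_inter.1 hu).1
          exact hIi (Finset.mem_coe.2 huI) (Finset.mem_coe.2 hv.1) huv.ne huv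
        · have h6 := Finset.card_inter_add_card_sdiff I C
          rw [hIS, hIk] at h6
          show (I \ C).card = k - S.card
          omega
      · intro J hJ
        have hJ' := Finset.mem_coe.1 hJ
        rw [Finset.mem_powersetCard] at hJ'
        obtain ⟨hJR, hJc⟩ := hJ'
        have hJC : ∀ v ∈ J, v ∉ C ∧ ¬ ∃ u ∈ S, G.Adj u v := by
          intro v hv
          have := hJR hv
          rw [hR, Finset.mem_filter, Finset.mem_sdiff] at this
          exact ⟨this.1.2, this.2⟩
        have hdisj : Disjoint S J := by
          rw [Finset.disjoint_left]
          intro x hx hxJ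
          exact (hJC x hxJ).1 (hSC hx)
        apply Finset.mem_coe.2
        rw [Finset.mem_filter, hP, Finset.mem_filter]
        refine ⟨⟨Finset.mem_univ _, ?_, ?_⟩, ?_⟩
        · rw [Finset.card_union_of_disjoint hdisj, hJc]
          have : s S = S.card := rfl
          omega
        · intro x hx y hy hne hadj
          have hx' := Finset.mem_coe.1 hx
          have hy' := Finset.mem_coe.1 hy
          rw [Finset.mem_union] at hx' hy'
          rcases hx' with hx' | hx' <;> rcases hy' with hy' | hy'
          · exact hSind (Finset.mem_coe.2 hx') (Finset.mem_coe.2 hy') hne hadj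
          · exact (hJC y hy').2 ⟨x, hx', hadj⟩
          · exact (hJC x hx').2 ⟨y, hy', hadj.symm⟩
          · rcases hC x y hadj with h | h
            · exact (hJC x hx').1 h
            · exact (hJC y hy').1 h
        · ext x
          rw [Finset.mem_inter, Finset.mem_union]
          constructor
          · rintro ⟨h | h, hxC⟩
            · exact h
            · exact absurd hxC (hJC x h).1
          · intro h
            exact ⟨Or.inl h, hSC h⟩
      · intro I hI
        have hI' := Finset.mem_coe.1 hI
        rw [Finset.mem_filter] at hI'
        show S ∪ (I \ C) = I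
        rw [← hI'.2]
        ext x
        simp only [Finset.mem_union, Finset.mem_inter, Finset.mem_sdiff]
        tauto
      · intro J hJ
        have hJ' := Finset.mem_coe.1 hJ
        rw [Finset.mem_powersetCard] at hJ'
        show (S ∪ J) \ C = J
        ext x
        simp only [Finset.mem_union, Finset.mem_sdiff]
        constructor
        · rintro ⟨h | h, hxC⟩
          · exact absurd (hSC h) hxC
          · exact h
        · intro h
          have := hJ'.1 h
          rw [hR, Finset.mem_filter, Finset.mem_sdiff] at this
          exact ⟨Or.inr h, this.1.2⟩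
    · rw [if_neg hk, Finset.card_eq_zero, Finset.filter_eq_empty_iff]
      intro I hI hIS
      rw [hP, Finset.mem_filter] at hI
      apply hk
      have h7 := Finset.card_le_card (Finset.inter_subset_left : I ∩ C ⊆ I)
      rw [hIS, hI.2.1] at h7
      exact h7
  · intro S hS
    rw [hF, Finset.mem_filter, Finset.mem_powerset] at hS
    refine ⟨rfl, hS.1, ?_⟩
    simp only [ha]

end H37.IS
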