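import Pool.Agent.H37.IS.Stm2

set_option autoImplicit false

namespace H37.IS

open N36365310

theorem HDE_proved (hSRT : S_SRT) (hHBD : S_HBD) : S_HDE := by
  intro ι _ F N c a s i0 hF k p hv hk
  by_cases h1 : N + 2 * c ≤ 2 * k + 1
  · exact hSRT ι F N c a s i0 hF k h1
  · push Not at h1
    obtain ⟨hp, hNp, hc, hNc, hai⟩ := hv
    have hB := hHBD ι F N c a s i0 hF (k + 1) p ⟨hp, hNp, hc, hNc, hai⟩ (by omega) (by omega)
    set B := ∑ i ∈ F.erase i0, ch (N - a i) (k + 1) (s i) with hBdef
    have e1 : sumch F N a s (k + 1) = N.choose (k + 1) + B := by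
      unfold sumch
      rw [← Finset.add_sum_erase F _ hF.h0, hF.ha0, hF.hs0]
      simp [ch, hBdef]
    have e2 : N.choose k ≤ sumch F N a s k := by
      unfold sumch
      have h2 : ch (N - a i0) k (s i0) = N.choose k := by
        rw [hF.ha0, hF.hs0]; simp [ch]
      rw [← h2]
      exact Finset.single_le_sum (f := fun i => ch (N - a i) k (s i))
        (fun i _ => Nat.zero_le _) hF.h0
    have h36 : 36 * c ≤ N := by
      have : 36 * c ≤ 9 * p * c := Nat.mul_le_mul_right c (by omega)
      omega
    have hk1 : 1 ≤ k := by omega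
    have hk2 : k ≤ 2 * (N + 1) := by omega
    have h3 : N.choose (k + 1) * (k + 1) = N.choose k * (N - k) := Nat.choose_succ_right_eq N k
    have h4 : N.choose (k + 1) * (k + 1) ≤ N.choose k * k := by
      rw [h3]
      exact Nat.mul_le_mul_left _ (by omega)
    have h5 : k * B ≤ N.choose (k + 1) := (Nat.mul_le_mul_right B hk2).trans hB
    have h6 : k * (N.choose (k + 1) + B) ≤ k * N.choose k := by
      calc k * (N.choose (k + 1) + B) = k * N.choose (k + 1) + k * B := by ring
        _ ≤ k * N.choose (k + 1) + N.choose (k + 1) := by omega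
        _ = N.choose (k + 1) * (k + 1) := by ring
        _ ≤ N.choose k * k := h4
        _ = k * N.choose k := by ring
    have h7 : N.choose (k + 1) + B ≤ N.choose k := Nat.le_of_mul_le_mul_left h6 (by omega)
    rw [e1]
    exact h7.trans e2

end H37.IS
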